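import Pool.Agent.Helper99.PG.Goals

/-!
PROJECT C2, target (a), packet PG-PHI: the kernel of a hypermap is the port determinant.
-/

namespace Pool.Agent.Helper95.PG

open Pool.Agent.Helper36.SC Pool.Agent.Helper37.Arb Pool.Agent.Helper52.C2
open Pool.Agent.Helper99.PG
open scoped Classical

/-- Two functions of tangles that are affine in every channel and agree at the channels `U 0`,
`U 1` agree. -/
theorem affine_ext {J : Type} [DecidableEq J] [Fintype J] (Φ Ψ : (J → Tg) → LaurentPolynomial ℝ)
    (hΦ : Affine Φ) (hΨ : Affine Ψ)
    (h : ∀ a : J → Tg, (∀ k, a k = U 0 ∨ a k = U 1) → Φ a = Ψ a) (a : J → Tg) : Φ a = Ψ a := by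
  have key : ∀ (S : Finset J) (a : J → Tg), (∀ k, k ∉ S → a k = U 0 ∨ a k = U 1) →
      Φ a = Ψ a := by
    intro S
    induction S using Finset.induction with
    | empty =>
      intro a ha
      exact h a fun k => ha k (Finset.notMem_empty k)
    | insert k S hk ih =>
      intro a ha
      have e := hΦ a k (a k)
      have e' := hΨ a k (a k)
      rw [Function.update_eq_self] at e e'
      have h0 : Φ (Function.update a k (U 0)) = Ψ (Function.update a k (U 0)) := by
        apply ih
        intro l hl
        by_cases hlk : l = k
        · subst hlk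
          left
          exact Function.update_self _ _ _
        · rw [Function.update_of_ne hlk]
          apply ha
          rw [Finset.mem_insert]
          rintro (h1 | h1)
          · exact hlk h1
          · exact hl h1
      have h1 : Φ (Function.update a k (U 1)) = Ψ (Function.update a k (U 1)) := by
        apply ih
        intro l hl
        by_cases hlk : l = k
        · subst hlk
          right
          exact Function.update_self _ _ _
        · rw [Function.update_of_ne hlk]
          apply ha
          rw [Finset.mem_insert]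
          rintro (h1 | h1)
          · exact hlk h1
          · exact hl h1
      rw [e, e', h0, h1]
  exact key Finset.univ a fun k hk => absurd (Finset.mem_univ k) hk

theorem U0_F : (U 0).F = 0 := by
  show geo 0 = 0
  simp [geo]

theorem U0_R : (U 0).R = 1 := by
  show LaurentPolynomial.T 0 = 1
  exact LaurentPolynomial.T_zero

theorem U1_F : (U 1).F = 1 := by
  show geo 1 = 1
  simp [geo]

theorem U1_R : (U 1).R = LaurentPolynomial.T 1 := rfl

theorem prod_update_mem {J M : Type} [DecidableEq J] [CommMonoid M] (f : Tg → M) (a : J → Tg)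
    (k : J) (S : Tg) (P : Finset J) (hk : k ∈ P) :
    ∏ v ∈ P, f (Function.update a k S v) = f S * ∏ v ∈ P.erase k, f (a v) := by
  rw [← Finset.mul_prod_erase P _ hk, Function.update_self]
  congr 1
  apply Finset.prod_congr rfl
  intro v hv
  rw [Function.update_of_ne (Finset.ne_of_mem_erase hv)]

theorem prod_update_notMem {J M : Type} [DecidableEq J] [CommMonoid M] (f : Tg → M) (a : J → Tg)
    (k : J) (S : Tg) (P : Finset J) (hk : k ∉ P) :
    ∏ v ∈ P, f (Function.update a k S v) = ∏ v ∈ P, f (a v) := by
  apply Finset.prod_congr rfl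
  intro v hv
  rw [Function.update_of_ne]
  rintro rfl
  exact hk hv

theorem affine_term {E : Type} [DecidableEq E] (a : E → Tg) (k : E) (S : Tg) (P Q : Finset E)
    (hQ : ∀ v, v ∈ Q ↔ v ∉ P) (c : LaurentPolynomial ℝ) :
    (∏ v ∈ P, (Function.update a k S v).F) * (∏ v ∈ Q, ((Function.update a k S v).R -
        LaurentPolynomial.T 1 * (Function.update a k S v).F)) * c =
    S.R * ((∏ v ∈ P, (Function.update a k (U 0) v).F) *
      (∏ v ∈ Q, ((Function.update a k (U 0) v).R -
        LaurentPolynomial.T 1 * (Function.update a k (U 0) v).F)) * c) +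
    (S.F * ((∏ v ∈ P, (Function.update a k (U 1) v).F) *
      (∏ v ∈ Q, ((Function.update a k (U 1) v).R -
        LaurentPolynomial.T 1 * (Function.update a k (U 1) v).F)) * c) -
    S.F * (LaurentPolynomial.T 1 * ((∏ v ∈ P, (Function.update a k (U 0) v).F) *
      (∏ v ∈ Q, ((Function.update a k (U 0) v).R -
        LaurentPolynomial.T 1 * (Function.update a k (U 0) v).F)) * c))) := by
  by_cases hk : k ∈ P
  · have hk' : k ∉ Q := by rw [hQ]; exact not_not.2 hk
    rw [prod_update_mem (fun t : Tg => t.F) a k S P hk,
      prod_update_mem (fun t : Tg => t.F) a k (U 0) P hk,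
      prod_update_mem (fun t : Tg => t.F) a k (U 1) P hk,
      prod_update_notMem (fun t : Tg => t.R - LaurentPolynomial.T 1 * t.F) a k S _ hk',
      prod_update_notMem (fun t : Tg => t.R - LaurentPolynomial.T 1 * t.F) a k (U 0) _ hk',
      prod_update_notMem (fun t : Tg => t.R - LaurentPolynomial.T 1 * t.F) a k (U 1) _ hk']
    simp only [U0_F, U1_F]
    ring
  · have hk' : k ∈ Q := (hQ k).2 hk
    rw [prod_update_notMem (fun t : Tg => t.F) a k S P hk,
      prod_update_notMem (fun t : Tg => t.F) a k (U 0) P hk,
      prod_update_notMem (fun t : Tg => t.F) a k (U 1) P hk,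
      prod_update_mem (fun t : Tg => t.R - LaurentPolynomial.T 1 * t.F) a k S _ hk',
      prod_update_mem (fun t : Tg => t.R - LaurentPolynomial.T 1 * t.F) a k (U 0) _ hk',
      prod_update_mem (fun t : Tg => t.R - LaurentPolynomial.T 1 * t.F) a k (U 1) _ hk']
    simp only [U0_F, U1_F, U0_R, U1_R]
    ring

theorem affine_Phi {E : Type} [Fintype E] [DecidableEq E] (G : BG E) : Affine G.Phi := by
  intro a k S
  unfold BG.Phi
  rw [mul_sub, Finset.mul_sum, Finset.mul_sum, Finset.mul_sum, Finset.mul_sum,
    ← Finset.sum_sub_distrib, ← Finset.sum_add_distrib]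
  apply Finset.sum_congr rfl
  intro P _
  refine affine_term a k S P _ ?_ _
  intro v
  exact @Finset.mem_compl E _ _ (fun a b => Classical.propDecidable (a = b)) _

section ports

variable {V : Type} [Fintype V]

omit [Fintype V] in
/-- the row `(v, false)` -/
theorem portMat_update {R : Type} [CommRing R] (up dn : V → Option V) (x : R) (b r : V → R)
    (v : V) (β ρ : R) :
    portMat up dn x (Function.update b v β) (Function.update r v ρ) =
      (portMat up dn x b r).updateRow (v, false)
        (β • (portMat up dn x (fun _ => 1) fun _ => 0) (v, false) +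
          ρ • (portMat up dn x (fun _ => 0) fun _ => 1) (v, false)) := by
  funext i j
  by_cases hi : i = (v, false)
  · subst hi
    rw [Matrix.updateRow_self]
    simp only [portMat, Function.update_self, Pi.add_apply, Pi.smul_apply, smul_eq_mul,
      Bool.false_eq_true, if_false]
    ring
  · rw [Matrix.updateRow_ne hi]
    obtain ⟨w, c⟩ := i
    cases c with
    | true => simp only [portMat, if_true]
    | false =>
      have hw : w ≠ v := by
        rintro rfl
        exact hi rfl
      simp only [portMat, Bool.false_eq_true, if_false, Function.update_of_ne hw]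

theorem affine_GP (H : Hyp V) (κ : Bool) : Affine (H.GP κ) := by
  have key : ∀ (a : V → Tg) (v : V) (S : Tg), H.GP κ (Function.update a v S) =
      S.F * ((portMat H.up (H.dn κ) (LaurentPolynomial.T 1) (fun v => (a v).F)
        fun v => (a v).R).updateRow (v, false)
          ((portMat H.up (H.dn κ) (LaurentPolynomial.T 1 : LaurentPolynomial ℝ) (fun _ => 1)
            fun _ => 0) (v, false))).det +
      S.R * ((portMat H.up (H.dn κ) (LaurentPolynomial.T 1) (fun v => (a v).F)
        fun v => (a v).R).updateRow (v, false)
          ((portMat H.up (H.dn κ) (LaurentPolynomial.T 1 : LaurentPolynomial ℝ) (fun _ => 0)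
            fun _ => 1) (v, false))).det := by
    intro a v S
    have e1 : (fun w => (Function.update a v S w).F) = Function.update (fun w => (a w).F) v S.F := by
      funext w
      by_cases hw : w = v
      · subst hw; simp
      · simp [Function.update_of_ne hw]
    have e2 : (fun w => (Function.update a v S w).R) = Function.update (fun w => (a w).R) v S.R := by
      funext w
      by_cases hw : w = v
      · subst hw; simp
      · simp [Function.update_of_ne hw]
    unfold Hyp.GP
    rw [e1, e2, portMat_update, Matrix.det_updateRow_add, Matrix.det_updateRow_smul,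
      Matrix.det_updateRow_smul]
  intro a v S
  rw [key a v S, key a v (U 0), key a v (U 1), U0_F, U0_R, U1_F, U1_R]
  ring

end ports

theorem update_some {V : Type} (a : Option V → Tg) (v : V) (S : Tg) :
    (fun w => Function.update a (some v) S (some w)) =
      Function.update (fun w => a (some w)) v S := by
  funext w
  by_cases hw : w = v
  · subst hw; simp
  · have : (some w : Option V) ≠ some v := by simpa using hw
    rw [Function.update_of_ne this, Function.update_of_ne hw]

theorem update_none {V : Type} (a : Option V → Tg) (S : Tg) :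
    (fun w => Function.update a none S (some w)) = fun w => a (some w) := by
  funext w
  rw [Function.update_of_ne (by simp)]

theorem affine_rhs {V : Type} [Fintype V] (H : Hyp V) :
    Affine (J := Option V) (fun a => (a none).R * H.GP false (fun v => a (some v)) +
      (a none).F * (H.GP true (fun v => a (some v)) -
        LaurentPolynomial.T 1 * H.GP false (fun v => a (some v)))) := by
  intro a k S
  cases k with
  | none =>
    simp only [update_none, Function.update_self, U0_F, U0_R, U1_F, U1_R]
    ring
  | some v =>
    have hn : (none : Option V) ≠ some v := by simp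
    simp only [update_some, Function.update_of_ne hn]
    rw [affine_GP H false (fun w => a (some w)) v S, affine_GP H true (fun w => a (some w)) v S]
    ring

theorem Phi_vertex {E : Type} [Fintype E] (G : BG E) (P : Finset E) (a : E → Tg) (n : E → ℤ)
    (h1 : ∀ e, e ∈ P → a e = U 1 ∧ n e = 1) (h0 : ∀ e, e ∉ P → a e = U 0 ∧ n e = 0) :
    G.Phi a = G.K n := by
  unfold BG.Phi
  rw [Finset.sum_eq_single P]
  · rw [Finset.prod_eq_one, Finset.prod_eq_one, one_mul, one_mul]
    · apply congrArg
      funext e
      by_cases he : e ∈ P
      · rw [if_pos he, (h1 e he).2]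
      · rw [if_neg he, (h0 e he).2]
    · intro v hv
      rw [Finset.mem_compl] at hv
      rw [(h0 v hv).1, U0_F, U0_R, mul_zero, sub_zero]
    · intro v hv
      rw [(h1 v hv).1, U1_F]
  · intro Q _ hQ
    by_cases h : ∃ v ∈ Q, v ∉ P
    · obtain ⟨v, hv, hv'⟩ := h
      have : ∏ v ∈ Q, (a v).F = 0 := by
        apply Finset.prod_eq_zero hv
        rw [(h0 v hv').1, U0_F]
      rw [this, zero_mul, zero_mul]
    · push Not at h
      have h' : ∃ v ∈ P, v ∉ Q := by
        by_contra hc
        push Not at hc
        exact hQ (Finset.Subset.antisymm h hc)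
      obtain ⟨v, hv, hv'⟩ := h'
      have : ∏ v ∈ Qᶜ, ((a v).R - LaurentPolynomial.T 1 * (a v).F) = 0 := by
        apply Finset.prod_eq_zero (Finset.mem_compl.2 hv')
        rw [(h1 v hv).1, U1_F, U1_R, mul_one, sub_self]
      rw [this, mul_zero, zero_mul]
  · intro h
    exact absurd (Finset.mem_univ _) h

theorem GP_vertex (hev : ∀ {V R : Type} [Fintype V] [DecidableEq V] [CommRing R]
    (up dn : V → Option V) (W : Finset V) (x : R),
    (portMat up dn x (fun v => if v ∈ W then 1 else 0) (fun v => if v ∈ W then x else 1)).det =
    ∑ A ∈ Finset.univ.filter (fun A : V → Bool => (∀ v, v ∉ W → A v = true) ∧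
      Reach up dn W A), x ^ (W.filter fun v => A v = false).card)
    (htree : ∀ {V : Type} [Fintype V] [DecidableEq V] (H : Hyp V)
    (G : BG (Option V)), IsCirc H.α H.β G → ∀ (κ : Bool) (W : Finset V),
    G.K (sz κ W) = ∑ A ∈ H.trees κ W, LaurentPolynomial.T (cnt W A))
    {V : Type} [Fintype V] (H : Hyp V) (G : BG (Option V)) (hc : IsCirc H.α H.β G) (κ : Bool)
    (W : Finset V) (a : V → Tg) (h1 : ∀ v, v ∈ W → a v = U 1) (h0 : ∀ v, v ∉ W → a v = U 0) :
    H.GP κ a = G.K (sz κ W) := by
  rw [htree H G hc κ]
  have e := hev H.up (H.dn κ) W (LaurentPolynomial.T 1 : LaurentPolynomial ℝ)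
  have e1 : (fun v => (a v).F) = fun v : V =>
      if v ∈ W then (1 : LaurentPolynomial ℝ) else 0 := by
    funext v
    by_cases h : v ∈ W
    · rw [if_pos h, h1 v h, U1_F]
    · rw [if_neg h, h0 v h, U0_F]
  have e2 : (fun v => (a v).R) = fun v : V =>
      if v ∈ W then (LaurentPolynomial.T 1 : LaurentPolynomial ℝ) else 1 := by
    funext v
    by_cases h : v ∈ W
    · rw [if_pos h, h1 v h, U1_R]
    · rw [if_neg h, h0 v h, U0_R]
  unfold Hyp.GP
  rw [e1, e2, e]
  unfold Hyp.trees cnt
  apply Finset.sum_congr rfl
  intro A _
  rw [LaurentPolynomial.T_pow, mul_one]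

theorem phi_aux (hev : ∀ {V R : Type} [Fintype V] [DecidableEq V] [CommRing R]
    (up dn : V → Option V) (W : Finset V) (x : R),
    (portMat up dn x (fun v => if v ∈ W then 1 else 0) (fun v => if v ∈ W then x else 1)).det =
    ∑ A ∈ Finset.univ.filter (fun A : V → Bool => (∀ v, v ∉ W → A v = true) ∧
      Reach up dn W A), x ^ (W.filter fun v => A v = false).card)
    (htree : ∀ {V : Type} [Fintype V] [DecidableEq V] (H : Hyp V)
    (G : BG (Option V)), IsCirc H.α H.β G → ∀ (κ : Bool) (W : Finset V),
    G.K (sz κ W) = ∑ A ∈ H.trees κ W, LaurentPolynomial.T (cnt W A))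
    {V : Type} [Fintype V] (H : Hyp V) (G : BG (Option V)) (hc : IsCirc H.α H.β G)
    (a : Option V → Tg) :
    G.Phi a = (a none).R * H.GP false (fun v => a (some v)) +
      (a none).F * (H.GP true (fun v => a (some v)) -
        LaurentPolynomial.T 1 * H.GP false (fun v => a (some v))) := by
  refine affine_ext G.Phi _ (affine_Phi G) (affine_rhs H) ?_ a
  clear a
  intro a ha
  have hW1 : ∀ v, v ∈ (Finset.univ.filter fun v => a (some v) = U 1) → a (some v) = U 1 := by
    intro v hv
    rw [Finset.mem_filter] at hv
    exact hv.2
  have hW0 : ∀ v, v ∉ (Finset.univ.filter fun v => a (some v) = U 1) → a (some v) = U 0 := by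
    intro v hv
    refine (ha (some v)).resolve_right fun h => hv ?_
    rw [Finset.mem_filter]
    exact ⟨Finset.mem_univ _, h⟩
  have hGP : ∀ κ : Bool, H.GP κ (fun v => a (some v)) =
      G.K (sz κ (Finset.univ.filter fun v => a (some v) = U 1)) := fun κ =>
    GP_vertex hev htree H G hc κ _ (fun v => a (some v)) hW1 hW0
  have hPhi : ∀ κ : Bool, (a none = U 1 ↔ κ = true) → G.Phi a =
      G.K (sz κ (Finset.univ.filter fun v => a (some v) = U 1)) := by
    intro κ hκ
    apply Phi_vertex G (Finset.univ.filter fun e => a e = U 1)
    · intro e he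
      rw [Finset.mem_filter] at he
      refine ⟨he.2, ?_⟩
      cases e with
      | none => simp only [sz, hκ.1 he.2, if_true]
      | some v => simp only [sz, Finset.mem_filter, Finset.mem_univ, true_and, he.2, if_true]
    · intro e he
      have he' : ¬ a e = U 1 := by
        intro h
        apply he
        rw [Finset.mem_filter]
        exact ⟨Finset.mem_univ _, h⟩
      refine ⟨(ha e).resolve_right he', ?_⟩
      cases e with
      | none =>
        have : κ = false := by
          cases κ with
          | true => exact absurd (hκ.2 rfl) he'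
          | false => rfl
        simp only [sz, this, Bool.false_eq_true, if_false]
      | some v => simp only [sz, Finset.mem_filter, Finset.mem_univ, true_and, he', if_false]
  show G.Phi a = (a none).R * H.GP false (fun v => a (some v)) +
    (a none).F * (H.GP true (fun v => a (some v)) -
      LaurentPolynomial.T 1 * H.GP false (fun v => a (some v)))
  rw [hGP, hGP]
  by_cases h : a none = U 1
  · rw [hPhi true (by simp [h]), h, U1_F, U1_R]
    ring
  · rw [hPhi false (by simp [h]), (ha none).resolve_right h, U0_F, U0_R]
    ring

/-- PHI -/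
theorem phi : GoalPhi := by
  intro hev htree V _ _ H G hc a
  exact phi_aux hev htree H G hc a

end Pool.Agent.Helper95.PG
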